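import Pool.Agent.helper34.NTA.Spec

set_option autoImplicit false

namespace Pool.Agent.NTA

open Equiv

theorem FINS_mono {D : Type} {σ τ : Perm D} {g g' : ℕ} (h : g ≤ g') (hf : Fits σ τ g) : Fits σ τ g' := by
  unfold Fits at *
  omega

/-- The result with the additional information that the graph is simple and triangle-free. -/
def FINS_stmt : Prop := ∃ (X : Type) (_ : Finite X) (G : MGraph X) (g : ℕ), (∀ x y, G.m x y ≤ 1) ∧
  (∀ x y z, G.m x y ≠ 0 → G.m y z ≠ 0 → G.m x z = 0) ∧ IsLeast {k | ReducedGenusLE G k} g ∧ ¬ ArcRep G g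

theorem FINS (hGRP : GRP_stmt) (hGEN : GEN_stmt) (hGFA : GFA_stmt) (hPOS : POS_stmt) (hEUL : EUL_stmt)
    (hSYS : SYS_stmt) (hCNX : CNX_stmt) (hXCT : XCT_stmt) (hABS : ABS_stmt) (hUNI : UNI_stmt) (hMIS : MIS_stmt)
    (hCNT : CNT_stmt) : FINS_stmt := by
  obtain ⟨H, i1, i2, s, sg, hG⟩ := hGRP
  have h0 : ReducedGenusLE (GG hG) (1 + 11 * (Nat.card H / 8)) := ⟨GH hG, rfl, hGEN H s sg hG⟩
  classical
  have hex : ∃ k, ReducedGenusLE (GG hG) k := ⟨_, h0⟩
  obtain ⟨f1, f2, f3, f4, f5, f6, f7, f8⟩ := hGFA H s sg hG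
  refine ⟨VV sg, inferInstance, GG hG, Nat.find hex, ?_, ?_,
    ⟨Nat.find_spec hex, fun k hk => Nat.find_min' hex hk⟩, ?_⟩
  · intro x y
    by_contra hlt
    have hne : (GG hG).m x y ≠ 0 := by omega
    rcases x with h | x
    · obtain ⟨c, rfl⟩ := f4 h y hne
      have := (f1 h c).2.1
      omega
    · obtain ⟨h, c, hc, rfl⟩ := f7 x
      have key : ∀ h' : H, yy hG h' c hc = yy hG h c hc → y = Sum.inl h' → False := by
        intro h' he hy
        have h2 := (f1 h' c).2.2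
        have h3 : nb hG h' c = Sum.inr (yy hG h c hc) := by
          unfold nb
          rw [dif_pos hc, he]
        rw [h3, ← hy] at h2
        omega
      rcases f5 h c hc y hne with h1 | h1
      · exact key h rfl h1
      · exact key (h * s c) (f8 h c hc).1 h1
  · intro x y z h1 h2
    by_contra h3
    exact f6 x y z h1 h2 h3
  rintro ⟨A, σ, hσ, hN, hF, hm⟩
  have hF' := FINS_mono (Nat.find_min' hex h0) hF
  obtain ⟨pos, yp, hP⟩ := hPOS H s sg hG A hm
  have hE := hEUL H s sg hG A pos yp σ hP hσ hF'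
  obtain ⟨τ, hτ, hnx⟩ := hSYS H s sg hG A pos yp σ hP hσ
  obtain ⟨hc1, hc2⟩ := hCNX H s sg hG A pos yp σ hP hσ
  rw [← hτ] at hE
  exact hCNT H s sg hG {e : A.Ray // Exit A σ e} τ (fun e => hvr e.1) (fun e => labr pos e.1) (XS s pos)
    (hABS H s sg hG A pos yp σ hP τ hnx) hc1 hc2 (hXCT H s sg hG A pos yp hP) (fun x hx => hx.1)
    (fun e e' h1 h2 h3 c h4 h5 => hUNI H s sg hG A pos yp σ hP hσ τ hnx e e' h1 h2 h3 c h4 h5)
    (fun x hx => hMIS H s sg hG A pos yp σ hP hσ hN τ hnx x hx) hE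

end Pool.Agent.NTA
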