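import Mathlib

set_option autoImplicit false

/-!
# MP_4536c8_co: arcs on surfaces.  Definitions

A graph drawn on a closed orientable surface is given by its darts (half edges), the rotation `σ` (cyclic order of the darts
at every vertex, in positive direction) and the involution `τ` which exchanges the two darts of an edge.  The faces are the
cycles of `τ * σ`.  By the theorem of Heffter, Edmonds and Ringel the drawing exists on the closed orientable surface of
genus `g` if and only if `V - E + F ≥ 2 c - 2 g`, `c` the number of connected components (`Fits`).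
-/

namespace Pool.Agent.NTA

open Equiv

/-- The number of cycles of a permutation (fixed points are cycles). -/
noncomputable def cyc {D : Type} (π : Perm D) : ℕ := Nat.card (Quotient (Perm.SameCycle.setoid π))

/-- The number of connected components: the orbits of the group generated by `σ` and `τ`. -/
noncomputable def comps {D : Type} (σ τ : Perm D) : ℕ :=
  Nat.card (MulAction.orbitRel.Quotient (Subgroup.closure ({σ, τ} : Set (Perm D))) D)

/-- The graph with darts `D`, rotation `σ` and edge involution `τ` can be drawn, with this rotation, on the closed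
orientable surface of genus `g`: `V - E + F ≥ 2 c - 2 g` with `V = cyc σ`, `2 E = |D|`, `F = cyc (τ * σ)`. -/
def Fits {D : Type} (σ τ : Perm D) (g : ℕ) : Prop :=
  Nat.card D + 4 * comps σ τ ≤ 2 * cyc σ + 2 * cyc (τ * σ) + 4 * g

/-- A loopless multigraph with vertex set `X`: `m x y` is the number of parallel edges between `x` and `y`. -/
@[ext] structure MGraph (X : Type) where
  m : X → X → ℕ
  symm : ∀ x y, m x y = m y x
  loopless : ∀ x, m x x = 0

/-- A finite hypergraph with vertex set `X`, edge set `E` (all edges nonempty), given by its set `I` of incidences: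
`i ∈ I` is the incidence of the vertex `v i` and the edge `w i`. -/
structure HGraph (X : Type) where
  E : Type
  I : Type
  fin : Finite I
  v : I → X
  w : I → E
  inj : ∀ i j, v i = v j → w i = w j → i = j
  sur : ∀ e, ∃ i, w i = e

variable {X : Type}

/-- `x ∈ e` -/
def HGraph.inc (H : HGraph X) (x : X) (e : H.E) : Prop := ∃ i, H.v i = x ∧ H.w i = e

open Classical in
/-- The adjacency multigraph: `x ≠ y` are joined by as many edges as there are edges of `H` containing both. -/
noncomputable def HGraph.Adj (H : HGraph X) : MGraph X where
  m x y := if x = y then 0 else Nat.card {e : H.E // H.inc x e ∧ H.inc y e}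
  symm x y := by
    by_cases h : x = y
    · rw [h]
    · rw [if_neg h, if_neg (Ne.symm h)]
      exact Nat.card_congr (Equiv.subtypeEquivRight fun e => And.comm)
  loopless x := if_pos rfl

/-- The vertex of the incidence graph at which a dart starts: the dart `(i, false)` is the end of the edge `i` of the
incidence graph at the vertex `v i`, the dart `(i, true)` its end at the hyperedge `w i`. -/
def HGraph.src (H : HGraph X) : H.I × Bool → X ⊕ H.E
  | (i, false) => Sum.inl (H.v i)
  | (i, true) => Sum.inr (H.w i)

/-- The involution of the darts of the incidence graph. -/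
def HGraph.opp (H : HGraph X) : Perm (H.I × Bool) := Equiv.prodCongr (Equiv.refl _) Equiv.boolNot

/-- The genus of `H`, that is the genus of its incidence graph, is at most `g`. -/
def HGraph.GenusLE (H : HGraph X) (g : ℕ) : Prop :=
  ∃ σ : Perm (H.I × Bool), (∀ d d', σ.SameCycle d d' ↔ H.src d = H.src d') ∧ Fits σ H.opp g

/-- The reduced genus of `G` is at most `g`. -/
def ReducedGenusLE (G : MGraph X) (g : ℕ) : Prop := ∃ H : HGraph X, H.Adj = G ∧ H.GenusLE g

/-- A family of arcs, one for every `x ∈ X`.  Every arc is cut back to its first and its last common point with other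
arcs of the family (this does not change the numbers of common points); the arc `x` is recorded by the sequence
`pt x 0, ..., pt x (len x - 1)` of its common points with other arcs, in the order of the arc. -/
structure ArcFamily (X : Type) where
  P : Type
  len : X → ℕ
  pt : X → ℕ → P
  inj : ∀ x i j, i < len x → j < len x → pt x i = pt x j → i = j
  common : ∀ x i, i < len x → ∃ y j, j < len y ∧ y ≠ x ∧ pt y j = pt x i

/-- The ray of the arc `x` which starts at its point number `i` in the direction `b` (`true`: towards larger numbers). -/
@[ext] structure ArcFamily.Ray (A : ArcFamily X) where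
  x : X
  i : ℕ
  b : Bool
  ok : i + b.toNat < A.len x ∧ 1 ≤ i + b.toNat

/-- The point at which a ray starts. -/
def ArcFamily.Ray.p {A : ArcFamily X} (r : A.Ray) : A.P := A.pt r.x r.i

/-- The other ray of the same segment. -/
def ArcFamily.flipFun (A : ArcFamily X) (r : A.Ray) : A.Ray where
  x := r.x
  i := bif r.b then r.i + 1 else r.i - 1
  b := !r.b
  ok := by
    obtain ⟨x, i, b, h1, h2⟩ := r
    cases b
    · change i + 0 < A.len x at h1
      change 1 ≤ i + 0 at h2
      change i - 1 + 1 < A.len x ∧ 1 ≤ i - 1 + 1
      omega
    · change i + 1 < A.len x at h1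
      change i + 1 + 0 < A.len x ∧ 1 ≤ i + 1 + 0
      omega

/-- The involution which exchanges the two rays of a segment. -/
def ArcFamily.flip (A : ArcFamily X) : Perm A.Ray :=
  Function.Involutive.toPerm A.flipFun (by
    intro r
    obtain ⟨x, i, b, h1, h2⟩ := r
    cases b
    · have : 1 ≤ i := by simpa using h2
      ext <;> simp [ArcFamily.flipFun]
      omega
    · ext <;> simp [ArcFamily.flipFun])

/-- In the cyclic order of the cycle of `a` the elements `a, a'` separate `b, b'`. -/
def Alternate {D : Type} (σ : Perm D) (a a' b b' : D) : Prop :=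
  ∃ k l m : ℕ, 0 < k ∧ k < l ∧ l < m ∧ (∀ t, 0 < t → t ≤ m → (σ ^ t) a ≠ a) ∧ (σ ^ l) a = a' ∧
    ((σ ^ k) a = b ∧ (σ ^ m) a = b' ∨ (σ ^ k) a = b' ∧ (σ ^ m) a = b)

/-- At every point which is interior for the arcs `x ≠ y`, the arcs cross: the two rays of `x` separate the two rays
of `y`.  (At a point which is an end of one of the arcs nothing is required.) -/
def NowhereTangent (A : ArcFamily X) (σ : Perm A.Ray) : Prop :=
  ∀ a a' b b' : A.Ray, a.x = a'.x → a.i = a'.i → a.b = true → a'.b = false →
    b.x = b'.x → b.i = b'.i → b.b = true → b'.b = false → a.x ≠ b.x → a.p = b.p → Alternate σ a a' b b'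

/-- `|A_x ∩ A_y|` -/
noncomputable def ArcFamily.mult (A : ArcFamily X) (x y : X) : ℕ :=
  Nat.card {p : A.P // (∃ i, i < A.len x ∧ A.pt x i = p) ∧ ∃ j, j < A.len y ∧ A.pt y j = p}

/-- `G` is the intersection multigraph of a family of nowhere tangent arcs on the closed orientable surface of
genus `g`. -/
def ArcRep (G : MGraph X) (g : ℕ) : Prop :=
  ∃ (A : ArcFamily X) (σ : Perm A.Ray), (∀ r r' : A.Ray, σ.SameCycle r r' ↔ r.p = r'.p) ∧
    NowhereTangent A σ ∧ Fits σ A.flip g ∧ ∀ x y, x ≠ y → G.m x y = A.mult x y

end Pool.Agent.NTA
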