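import Pool.Agent.helper34.NTA.Spec

set_option autoImplicit false

namespace Pool.Agent.NTA

open Equiv

theorem FIN_mono {D : Type} {σ τ : Perm D} {g g' : ℕ} (h : g ≤ g') (hf : Fits σ τ g) : Fits σ τ g' := by
  unfold Fits at *
  omega

theorem FIN (hGRP : GRP_stmt) (hGEN : GEN_stmt) (hPOS : POS_stmt) (hEUL : EUL_stmt) (hSYS : SYS_stmt)
    (hCNX : CNX_stmt) (hXCT : XCT_stmt) (hABS : ABS_stmt) (hUNI : UNI_stmt) (hMIS : MIS_stmt) (hCNT : CNT_stmt) :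
    FIN_stmt := by
  obtain ⟨H, i1, i2, s, sg, hG⟩ := hGRP
  have h0 : ReducedGenusLE (GG hG) (1 + 11 * (Nat.card H / 8)) := ⟨GH hG, rfl, hGEN H s sg hG⟩
  classical
  have hex : ∃ k, ReducedGenusLE (GG hG) k := ⟨_, h0⟩
  refine ⟨VV sg, inferInstance, GG hG, Nat.find hex, ⟨Nat.find_spec hex, fun k hk => Nat.find_min' hex hk⟩, ?_⟩
  rintro ⟨A, σ, hσ, hN, hF, hm⟩
  have hF' := FIN_mono (Nat.find_min' hex h0) hF
  obtain ⟨pos, yp, hP⟩ := hPOS H s sg hG A hm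
  have hE := hEUL H s sg hG A pos yp σ hP hσ hF'
  obtain ⟨τ, hτ, hnx⟩ := hSYS H s sg hG A pos yp σ hP hσ
  obtain ⟨hc1, hc2⟩ := hCNX H s sg hG A pos yp σ hP hσ
  rw [← hτ] at hE
  exact hCNT H s sg hG {e : A.Ray // Exit A σ e} τ (fun e => hvr e.1) (fun e => labr pos e.1) (XS s pos)
    (hABS H s sg hG A pos yp σ hP τ hnx) hc1 hc2 (hXCT H s sg hG A pos yp hP) (fun x hx => hx.1)
    (fun e e' h1 h2 h3 c h4 h5 => hUNI H s sg hG A pos yp σ hP hσ τ hnx e e' h1 h2 h3 c h4 h5)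
    (fun x hx => hMIS H s sg hG A pos yp σ hP hσ hN τ hnx x hx) hE

end Pool.Agent.NTA
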