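import Pool.Agent.helper34.NTA.Defs

set_option autoImplicit false

/-!
# MP_4536c8_co: the counterexample

Labels are the elements of `ZMod 10`; odd labels are K-labels, even labels are R-labels.
-/

namespace Pool.Agent.NTA

open Equiv

/-- K-labels -/
def KL (c : ZMod 10) : Prop := c.val % 2 = 1

instance : DecidablePred KL := fun c => by unfold KL; infer_instance

/-- the number of K-letters of a word -/
def kn (w : List (ZMod 10)) : ℕ := w.countP fun c => decide (KL c)

/-- the number of R-letters of a word -/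
def rn (w : List (ZMod 10)) : ℕ := w.countP fun c => !decide (KL c)

/-- the alternating word of length 8 -/
def alt (a b : ZMod 10) : List (ZMod 10) := [a, b, a, b, a, b, a, b]

/-- the group of the counterexample -/
structure Grp (H : Type) [Group H] (s : ZMod 10 → H) (sg : H →* ℤˣ) : Prop where
  inv : ∀ c, s c * s c = 1
  sgn : ∀ c, sg (s c) = -1
  four : ∀ c, (s c * s (c + 1)) ^ 4 = 1
  two : ∀ c, (s c * s (c + 1)) ^ 2 ≠ 1
  gen : Subgroup.closure (Set.range s) = ⊤
  cls : ∀ w : List (ZMod 10), (w.map s).prod = 1 → w.IsChain (· ≠ ·) → w.head? ≠ w.getLast? →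
    45 * kn w + rn w ≤ 224 → ∃ c, w = alt c (c + 1) ∨ w = alt (c + 1) c

section

variable {H : Type} [Group H] {s : ZMod 10 → H} {sg : H →* ℤˣ}

open Classical in
/-- the end of sign `1` of the edge `{h, h * s c}` -/
noncomputable def nrm (s : ZMod 10 → H) (sg : H →* ℤˣ) (h : H) (c : ZMod 10) : H := if sg h = 1 then h else h * s c

theorem sg_nrm (hG : Grp H s sg) (h : H) (c : ZMod 10) : sg (nrm s sg h c) = 1 := by
  unfold nrm
  split_ifs with h1
  · exact h1
  · rw [map_mul, hG.sgn, (Int.units_eq_one_or (sg h)).resolve_left h1]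
    rfl

/-- the small vertices: the K-edges `{h, h * s c}`, `h` of sign `1` -/
def YY (sg : H →* ℤˣ) : Type := {p : H × ZMod 10 // KL p.2 ∧ sg p.1 = 1}

/-- the edges: the half edges `(h, c)`, `c` a K-label, and the R-edges `{h, h * s c}`, `h` of sign `1` -/
def EE (sg : H →* ℤˣ) : Type := {p : H × ZMod 10 // KL p.2 ∨ sg p.1 = 1}

/-- the vertices: big vertices `h ∈ H` and small vertices -/
abbrev VV (sg : H →* ℤˣ) : Type := H ⊕ YY sg

/-- the incidences -/
abbrev II (H : Type) : Type := (H × ZMod 10) ⊕ (H × {c : ZMod 10 // KL c})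

/-- the small vertex on the K-edge `{h, h * s c}` -/
noncomputable def yy (hG : Grp H s sg) (h : H) (c : ZMod 10) (hc : KL c) : YY sg := ⟨(nrm s sg h c, c), hc, sg_nrm hG h c⟩

open Classical in
/-- the edge with label `c` at the big vertex `h` -/
noncomputable def ee (hG : Grp H s sg) (h : H) (c : ZMod 10) : EE sg :=
  if hc : KL c then ⟨(h, c), Or.inl hc⟩ else ⟨(nrm s sg h c, c), Or.inr (sg_nrm hG h c)⟩

/-- the vertex of an incidence -/
noncomputable def vI (hG : Grp H s sg) : II H → VV sg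
  | Sum.inl p => Sum.inl p.1
  | Sum.inr p => Sum.inr (yy hG p.1 p.2.1 p.2.2)

/-- the edge of an incidence -/
noncomputable def wI (hG : Grp H s sg) : II H → EE sg
  | Sum.inl p => ee hG p.1 p.2
  | Sum.inr p => ee hG p.1 p.2.1

theorem ee_K (hG : Grp H s sg) (h : H) (c : ZMod 10) (hc : KL c) : ee hG h c = ⟨(h, c), Or.inl hc⟩ := by
  unfold ee
  rw [dif_pos hc]

theorem ee_R (hG : Grp H s sg) (h : H) (c : ZMod 10) (hc : ¬ KL c) :
    ee hG h c = ⟨(nrm s sg h c, c), Or.inr (sg_nrm hG h c)⟩ := by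
  unfold ee
  rw [dif_neg hc]

theorem ee_snd (hG : Grp H s sg) (h : H) (c : ZMod 10) : (ee hG h c).1.2 = c := by
  by_cases hc : KL c
  · rw [ee_K hG h c hc]
  · rw [ee_R hG h c hc]

theorem mul_s_ne (hG : Grp H s sg) (h : H) (c : ZMod 10) : h * s c ≠ h := by
  intro h1
  have h2 : sg (h * s c) = sg h := by rw [h1]
  rw [map_mul, hG.sgn] at h2
  rcases Int.units_eq_one_or (sg h) with h3 | h3 <;> rw [h3] at h2 <;> exact absurd h2 (by decide)

theorem mul_s_mul_s (hG : Grp H s sg) (h : H) (c : ZMod 10) : h * s c * s c = h := by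
  rw [mul_assoc, hG.inv, mul_one]

theorem sg_one_iff (hG : Grp H s sg) (h : H) (c : ZMod 10) : sg (h * s c) = 1 ↔ sg h ≠ 1 := by
  rw [map_mul, hG.sgn]
  rcases Int.units_eq_one_or (sg h) with h3 | h3 <;> rw [h3] <;> decide

theorem nrm_mul (hG : Grp H s sg) (h : H) (c : ZMod 10) : nrm s sg (h * s c) c = nrm s sg h c := by
  unfold nrm
  by_cases h1 : sg h = 1
  · rw [if_pos h1, if_neg (by rw [sg_one_iff hG]; exact not_not.2 h1), mul_s_mul_s hG]
  · rw [if_neg h1, if_pos ((sg_one_iff hG h c).2 h1)]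

theorem nrm_eq (hG : Grp H s sg) (h h' : H) (c : ZMod 10) (he : nrm s sg h c = nrm s sg h' c) :
    h' = h ∨ h' = h * s c := by
  unfold nrm at he
  split_ifs at he with h1 h2 h2
  · exact Or.inl he.symm
  · right
    rw [he, mul_s_mul_s hG]
  · exact Or.inr he.symm
  · left
    exact (mul_right_cancel he).symm

theorem yy_mul (hG : Grp H s sg) (h : H) (c : ZMod 10) (hc : KL c) : yy hG (h * s c) c hc = yy hG h c hc := by
  apply Subtype.ext
  change (nrm s sg (h * s c) c, c) = (nrm s sg h c, c)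
  rw [nrm_mul hG]

theorem yy_eq (hG : Grp H s sg) (h h' : H) (c c' : ZMod 10) (hc : KL c) (hc' : KL c')
    (he : yy hG h c hc = yy hG h' c' hc') : c = c' ∧ (h' = h ∨ h' = h * s c) := by
  have h1 : (nrm s sg h c, c) = (nrm s sg h' c', c') := congrArg Subtype.val he
  obtain ⟨h2, h3⟩ := Prod.mk.injEq .. ▸ h1
  subst h3
  exact ⟨rfl, nrm_eq hG h h' c h2⟩

theorem yy_surj (hG : Grp H s sg) (y : YY sg) : ∃ h c hc, y = yy hG h c hc := by
  obtain ⟨⟨h, c⟩, hc, h1⟩ := y
  refine ⟨h, c, hc, ?_⟩
  apply Subtype.ext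
  change (h, c) = (nrm s sg h c, c)
  unfold nrm
  rw [if_pos h1]

theorem ee_mul (hG : Grp H s sg) (h : H) (c : ZMod 10) (hc : ¬ KL c) : ee hG (h * s c) c = ee hG h c := by
  rw [ee_R hG _ c hc, ee_R hG _ c hc]
  apply Subtype.ext
  change (nrm s sg (h * s c) c, c) = (nrm s sg h c, c)
  rw [nrm_mul hG]

instance [Finite H] : Finite (YY sg) := by unfold YY; infer_instance

instance [Finite H] : Finite (EE sg) := by unfold EE; infer_instance

/-- the hypergraph: its edges are the edges of the Cayley graph with the K-edges subdivided -/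
noncomputable def GH [Finite H] (hG : Grp H s sg) : HGraph (VV sg) where
  E := EE sg
  I := II H
  fin := inferInstance
  v := vI hG
  w := wI hG
  inj := by
    rintro (⟨h, c⟩ | ⟨h, c, hc⟩) (⟨h', c'⟩ | ⟨h', c', hc'⟩) hv hw
    · have h1 : h = h' := Sum.inl.inj hv
      subst h1
      have h2 : ee hG h c = ee hG h c' := hw
      have h3 : c = c' := by rw [← ee_snd hG h c, ← ee_snd hG h c', h2]
      rw [h3]
    · exact absurd hv Sum.inl_ne_inr
    · exact absurd hv Sum.inr_ne_inl
    · have h2 : ee hG h c = ee hG h' c' := hw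
      rw [ee_K hG h c hc, ee_K hG h' c' hc'] at h2
      have h3 := congrArg Subtype.val h2
      obtain ⟨rfl, rfl⟩ := Prod.mk.injEq .. ▸ h3
      rfl
  sur := by
    rintro ⟨⟨h, c⟩, hc⟩
    refine ⟨Sum.inl (h, c), ?_⟩
    change ee hG h c = _
    by_cases h1 : KL c
    · rw [ee_K hG h c h1]
    · rw [ee_R hG h c h1]
      apply Subtype.ext
      change (nrm s sg h c, c) = (h, c)
      unfold nrm
      rw [if_pos (hc.resolve_left h1)]

/-- the multigraph of the counterexample -/
noncomputable def GG [Finite H] (hG : Grp H s sg) : MGraph (VV sg) := (GH hG).Adj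

/-- the neighbour with label `c` of the big vertex `h` -/
noncomputable def nb (hG : Grp H s sg) (h : H) (c : ZMod 10) : VV sg :=
  if hc : KL c then Sum.inr (yy hG h c hc) else Sum.inl (h * s c)

end

end Pool.Agent.NTA
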