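import Pool.Agent.helper34.NTA.Model

set_option autoImplicit false

/-!
# Project NTA (MP_4536c8_co): a graph of genus `g` which is not an intersection graph of nowhere tangent arcs on `S_g`

Page: /team-store/MP_4536c8_no_helper34.md.  RULES.  Row `nta:XXX` is a file `Pool/Agent/<seat>/NTA/XXX.lean` with

  import Pool.Agent.helper34.NTA.Spec
  set_option autoImplicit false
  namespace Pool.Agent.NTA
  open Equiv
  theorem XXX (hYYY : YYY_stmt) ... : XXX_stmt := ...
  end Pool.Agent.NTA

auxiliary lemmas prefixed `XXX_`, no double quotes.  Other rows only as hypotheses.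

Helper lemmas which may be used: Model.lean: `mul_s_ne`, `mul_s_mul_s`, `sg_one_iff`, `nrm_mul`, `nrm_eq`, `yy_mul`, `yy_eq`, `yy_surj`, `ee_mul`, `ee_K`, `ee_R`, `Finite (YY sg)`, `Finite (EE sg)`;
here: `exists_ray`, `ray_lt`, `other_ray`, `ray_i`, `Finite A.Ray`, `labr_pos`, `labr_eq`, `exit_x`.

NOTATION.  `n = Nat.card H`; `ψ = flip * σ`; `KL c`: `c` is a K-label (odd), the others are R-labels; `s c`, `sg`: structure `Grp`.
-/

namespace Pool.Agent.NTA

open Equiv

/-! ## A. The group -/

/-- **QGR** (medium; only Mathlib).  A finite group generated by five involutions without short relations.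
PROOF.  `B` = the finite set of the words `w : List (Fin 5)` with `w.length ≤ 300` and `w.IsChain (· ≠ ·)` (finite: `List.finite_length_le`).  For `i : Fin 5` let `ρ i : B → B`, `i :: w ↦ w`;
if `w` does not start with `i`: `w ↦ i :: w` when `w.length < 300`, and `w ↦ w` when `w.length = 300`.  This is an involution, so an element of `Perm B`.  `Q = Perm B`.  For a word `w = [a₁, .., a_N]`, `IsChain`, `N ≤ 300`:
`(ρ a₁ * .. * ρ a_N) [] = w` (induction from the right end: `(w.map ρ).prod [] = w`, as `ρ a (w') = a :: w'` when `a :: w'` is a chain of length `≤ 300`).  So it is not `1` if `w ≠ []`. -/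
def QGR_stmt : Prop := ∃ (Q : Type) (_ : Group Q) (_ : Finite Q) (r : Fin 5 → Q), (∀ i, r i * r i = 1) ∧
  ∀ w : List (Fin 5), w ≠ [] → w.IsChain (· ≠ ·) → w.length ≤ 300 → (w.map r).prod ≠ 1

/-- adjacent lamps -/
def Near {Q : Type} [Group Q] (r : Fin 5 → Q) (p q : Q × Fin 5) : Prop :=
  p.2 = q.2 ∧ (q.1 = p.1 * r p.2 ∨ q.1 = p.1 * r (p.2 + 1))

/-- the lamp group -/
structure Lamp (Q L : Type) [Group Q] [Group L] (r : Fin 5 → Q) (ι : Q →* L) (k : Q × Fin 5 → L) (π : L →* Q) :
    Prop where
  pi_iota : ∀ q, π (ι q) = q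
  pi_k : ∀ p, π (k p) = 1
  inv : ∀ p, k p * k p = 1
  conj : ∀ q u a, ι q * k (u, a) * (ι q)⁻¹ = k (q * u, a)
  com : ∀ p q, Near r p q → k p * k q = k q * k p
  par : ∀ l : List (Q × Fin 5), (l.map k).prod = 1 → ∀ p, ∃ m, l.countP (fun q => @decide (q = p) (Classical.dec _)) = 2 * m
  nc : ∀ p q, p ≠ q → ¬ Near r p q → (k p * k q) ^ 2 ≠ 1

/-- **LMP** (medium; only Mathlib).  The lamp group.
PROOF.  `I = Q × Fin 5`, `E = I → I → DihedralGroup 4` (pointwise product), `x = sr 0`, `y = sr 1` (`x * x = 1`, `y * y = 1`, `(x * y) ^ 2 ≠ 1`: `decide`).  `kf p : E`: `kf p u v = x` if `u = p`; `= y` if `u ≠ p`, `v = p` and `¬ Near r u v`; `= 1` otherwise (classical).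
`Near` is symmetric (`r i * r i = 1`) and `Near r (g * u.1, u.2) (g * v.1, v.2) ↔ Near r u v`.  `Q` acts on `E`: `(g • f) u v = f (g⁻¹ * u.1, u.2) (g⁻¹ * v.1, v.2)`, `φ : Q →* MulAut E`, `φ g (kf (u, a)) = kf (g * u, a)`.  `L = E ⋊[φ] Q`, `ι = inr`, `π = rightHom`, `k p = inl (kf p)`.
`com`: coordinate by coordinate: at `(p, q)` `kf p = x`, `kf q = 1` (as `Near`), at `(q, p)` `kf p = 1`, `kf q = x` (or `p = q`), at all others at least one of the two is `1`.  `par`: coordinate `(p, p)`: `kf q p p = x` if `q = p` and `1` otherwise, so `x ^ count = 1`.  `nc`: coordinate `(p, q)`: `(x * y) ^ 2 ≠ 1`.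
(The product of a list of `inl`'s is `inl` of the product.) -/
def LMP_stmt : Prop := ∀ (Q : Type) [Group Q] [Finite Q] (r : Fin 5 → Q), (∀ i, r i * r i = 1) →
  ∃ (L : Type) (_ : Group L) (_ : Finite L) (ι : Q →* L) (k : Q × Fin 5 → L) (π : L →* Q), Lamp Q L r ι k π

/-- the index of a label: the labels `2 a` and `2 a + 1` have index `a` -/
def lam (c : ZMod 10) : Fin 5 := ⟨c.val / 2, by have := ZMod.val_lt c; omega⟩

/-- the generator with label `c` -/
def gen {Q L : Type} [Group Q] [Group L] (r : Fin 5 → Q) (ι : Q →* L) (k : Q × Fin 5 → L) (c : ZMod 10) : L :=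
  if KL c then k (1, lam c) else ι (r (lam c))

/-- the lamps switched by the word `w`, starting at `u` -/
def lst {Q : Type} [Group Q] (r : Fin 5 → Q) : Q → List (ZMod 10) → List (Q × Fin 5)
  | _, [] => []
  | u, c :: w => if KL c then (u, lam c) :: lst r u w else lst r (u * r (lam c)) w

/-- the product of the R-letters -/
def qpr {Q : Type} [Group Q] (r : Fin 5 → Q) : List (ZMod 10) → Q
  | [] => 1
  | c :: w => if KL c then qpr r w else r (lam c) * qpr r w

/-- **RED** (short).  PROOF.  Let `u` be the word of the indices of `w` (`lam` is injective on R-labels, so `u` is a chain).  If the product is `1` then `w = []` by the hypothesis.  If the product is `r i`: if `w` is empty then `r i = 1`, against the hypothesis for `[i]`;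
if the last letter of `u` is not `i` then `u ++ [i]` is a chain with product `r i * r i = 1`: impossible; so `u = u' ++ [i]` and the product of `u'` is `1`, so `u' = []`. -/
def RED_stmt : Prop := ∀ (Q : Type) [Group Q] (r : Fin 5 → Q), (∀ i, r i * r i = 1) →
  (∀ w : List (Fin 5), w ≠ [] → w.IsChain (· ≠ ·) → w.length ≤ 300 → (w.map r).prod ≠ 1) →
  ∀ w : List (ZMod 10), w.IsChain (· ≠ ·) → w.length ≤ 299 → (∀ c ∈ w, ¬ KL c) →
    (qpr r w = 1 → w = []) ∧ ∀ c, ¬ KL c → qpr r w = r (lam c) → w = [c]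

/-- **EVL** (short).  Value of a word.  PROOF.  Induction on `w`: for a K-letter `ι u * k (1, a) = k (u, a) * ι u` (`conj`); for an R-letter `ι u * ι (r a) = ι (u * r a)`.  `append`: induction. -/
def EVL_stmt : Prop := ∀ (Q L : Type) [Group Q] [Group L] (r : Fin 5 → Q) (ι : Q →* L) (k : Q × Fin 5 → L)
  (π : L →* Q), Lamp Q L r ι k π → ∀ w : List (ZMod 10),
  (∀ u : Q, ι u * (w.map (gen r ι k)).prod = ((lst r u w).map k).prod * ι (u * qpr r w)) ∧
  (∀ u : Q, ∀ w', lst r u (w ++ w') = lst r u w ++ lst r (u * qpr r w) w') ∧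
  (∀ w', qpr r (w ++ w') = qpr r w * qpr r w') ∧ (∀ u : Q, (lst r u w).length = kn w) ∧
  ((w.map (gen r ι k)).prod = 1 → qpr r w = 1 ∧ ((lst r 1 w).map k).prod = 1)

/-- **CLK** (medium; from RED, EVL).  Classification of the closed words which start with a K-letter.
PROOF.  Put `K = kn w ≤ 4` (`45 K ≤ 224`), `w.length = K + rn w ≤ 228`.  Write `w = c₁ :: (u₁ ++ c₂ :: (u₂ ++ ..))`, `c_m` K-letters, `u_m` words in R-letters (all chains); `a_m = lam c_m` (`lam` is injective on K-letters), `g_m = qpr r u_m`.  By EVL `g₁ ⋯ g_K = 1` and the product of the lamps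
`p₁ = (1, a₁), p₂ = (g₁, a₂), p₃ = (g₁ g₂, a₃), p₄ = (g₁ g₂ g₃, a₄)` is `1`, so every element occurs an even number of times among `p₁, .., p_K` (`par`).  (i) `p_m = p_(m+1)` is impossible: `g_m = 1`, so `u_m = []` (RED) and `c_m = c_(m+1)` are neighbours in `w`.  (ii) `p_K = p₁` is impossible: then
`g_K = 1`, `u_K = []`, the last letter `c_K` of `w` is equal to the first letter (for `K = 1`: one element cannot occur an even number of times).  So `K = 4` (for `K = 2`: `p₁ = p₂`; for `K = 3` one of the elements occurs once or three times), `p₁ = p₃ =: p`, `p₂ = p₄ =: q`, `p ≠ q`; the product of the lamps is `(k p * k q) ^ 2 = 1`,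
so `Near r p q` (`nc`): all `a_m = a`, `g₁ = r i` with `i ∈ {a, a + 1}`, `g₂ = g₁⁻¹ = r i`, `g₃ = r i`, `g₄ = r i`.  By RED every `u_m` is the one letter word of the R-letter `c'` with `lam c' = i`: `c' = c₁ - 1` if `i = a`, `c' = c₁ + 1` if `i = a + 1`. -/
def CLK_stmt : Prop := ∀ (Q L : Type) [Group Q] [Group L] (r : Fin 5 → Q) (ι : Q →* L) (k : Q × Fin 5 → L)
  (π : L →* Q), (∀ i, r i * r i = 1) →
  (∀ w : List (Fin 5), w ≠ [] → w.IsChain (· ≠ ·) → w.length ≤ 300 → (w.map r).prod ≠ 1) → Lamp Q L r ι k π →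
  ∀ (c : ZMod 10) (w : List (ZMod 10)), KL c → ((c :: w).map (gen r ι k)).prod = 1 → (c :: w).IsChain (· ≠ ·) →
    (c :: w).head? ≠ (c :: w).getLast? → 45 * kn (c :: w) + rn (c :: w) ≤ 224 →
    c :: w = alt c (c + 1) ∨ c :: w = alt c (c - 1)

/-- **CLA** (short to medium; from CLK, RED, EVL).  Classification.  PROOF.  If `w` has no K-letter, `qpr r w = 1` (EVL) and `w = []` (RED), against `head? ≠ getLast?`.  Otherwise `w = u ++ c :: v` with `c` a K-letter and `u` without K-letters; `w' = c :: (v ++ u)` satisfies the hypotheses of CLK (conjugate product;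
the new neighbours are the last and the first letter of `w`; new last and first letter are neighbours in `w`; if `u = []` nothing to do).  So `w' = alt c c'` with `c' = c + 1` or `c - 1`, and `w`, a rotation of `w'` (`List.rotate`, or cases on the length of `u`: `u` has at most one letter), is `alt c c'` or `alt c' c`. -/
def CLA_stmt : Prop := ∀ (Q L : Type) [Group Q] [Group L] (r : Fin 5 → Q) (ι : Q →* L) (k : Q × Fin 5 → L)
  (π : L →* Q), (∀ i, r i * r i = 1) →
  (∀ w : List (Fin 5), w ≠ [] → w.IsChain (· ≠ ·) → w.length ≤ 300 → (w.map r).prod ≠ 1) → Lamp Q L r ι k π →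
  ∀ w : List (ZMod 10), (w.map (gen r ι k)).prod = 1 → w.IsChain (· ≠ ·) → w.head? ≠ w.getLast? →
    45 * kn w + rn w ≤ 224 → ∃ c, w = alt c (c + 1) ∨ w = alt (c + 1) c

/-- **GRP** (medium; from QGR, LMP, CLA).  The group.  PROOF.  `s' c = (gen r ι k c, -1) ∈ L × ℤˣ`, `H = Subgroup.closure (Set.range s')`, `s c` the element `s' c` of `H`, `sg` the second coordinate.  `inv`, `sgn`, `gen` (`Subgroup.closure_closure_coe_preimage`), `cls` (CLA, first coordinate).  Relations: let `ρ = ι (r i)`, `κ = k (1, a)`,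
`i = a` or `i = a + 1`.  `(ρ κ)² = (ρ κ ρ) κ = k (r i, a) * k (1, a)`, `Near r (1, a) (r i, a)`, so the two lamps commute and `(ρ κ)⁴ = 1`; `(ρ κ)² ≠ 1` by `par` for the list `[(r i, a), (1, a)]` (`r i ≠ 1`).  `(κ ρ)` is conjugate to `(ρ κ)`.  For a label `c`: if `c` is K, `c + 1` is R with `lam (c + 1) = lam c + 1`;
if `c` is R, `c + 1` is K with `lam (c + 1) = lam c` (`decide` / `fin_cases`). -/
def GRP_stmt : Prop := ∃ (H : Type) (_ : Group H) (_ : Finite H) (s : ZMod 10 → H) (sg : H →* ℤˣ), Grp H s sg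

/-! ## B. The map -/

/-- **CYL** (short to medium; only Mathlib).  A lower bound for the number of cycles.  PROOF.  Group the sum by cycles (`Finset.sum_fiberwise` over the quotient): the cycle `C` of `d` has at most `L d` elements (`(π ^ L d) d = d`, every element of `C` is `(π ^ t) d`, `t < L d`), so every term with `d ∈ C` is at most `1 / |C|`
and the sum over `C` is at most `1`. -/
def CYL_stmt : Prop := ∀ (D : Type) [Fintype D] (π : Perm D) (L : D → ℕ), (∀ d, 0 < L d) → (∀ d, (π ^ L d) d = d) →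
  ∑ d, (1 : ℚ) / (L d : ℚ) ≤ (cyc π : ℚ)

section

variable {H : Type} [Group H] {s : ZMod 10 → H} {sg : H →* ℤˣ}

open Classical in
/-- the rotation of the incidence graph -/
structure Rot (s : ZMod 10 → H) (sg : H →* ℤˣ) (σ : Perm (II H × Bool)) : Prop where
  big : ∀ h c, σ (Sum.inl (h, c), false) = (Sum.inl (h, if sg h = 1 then c + 1 else c - 1), false)
  sml : ∀ h c, σ (Sum.inr (h, c), false) = (Sum.inr (h * s c.1, c), false)
  edR : ∀ h c, ¬ KL c → σ (Sum.inl (h, c), true) = (Sum.inl (h * s c, c), true)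
  edK : ∀ h c, (hc : KL c) → σ (Sum.inl (h, c), true) = (Sum.inr (h, ⟨c, hc⟩), true)
  edY : ∀ h c, σ (Sum.inr (h, c), true) = (Sum.inl (h, c.1), true)

end

/-- the involution of the darts of the incidence graph (`(GH hG).opp` by `rfl`) -/
def oppI (H : Type) : Perm (II H × Bool) := Equiv.prodCongr (Equiv.refl _) Equiv.boolNot

/-- **ROT** (medium).  The rotation exists.  PROOF.  Define `σ` by these formulas (on `false` darts: translation by `± 1` for big vertices, `h ↦ h * s c` for the small ones; on `true` darts an involution).  `SameCycle`: the vertex `src` of a dart is invariant under `σ` (`vI`: `yy hG (h * s c) c = yy hG h c`, because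
`nrm (h * s c) c = nrm h c`; `wI`: `ee hG (h * s c) c = ee hG h c` for R-labels); conversely: two `false` darts with the same big vertex `(h, c), (h, c')`: a power of `σ` (`σ ^ m` adds `± m`); two `false` darts at the same small vertex: `(h, c), (h', c)` with `nrm h c = nrm h' c`, so `h' = h` or `h' = h * s c`;
two `true` darts at the same edge: `inl (h, c), inl (h', c)` R with `nrm h c = nrm h' c`; or `inl (h, c)`, `inr (h, c)`. -/
def ROT_stmt : Prop := ∀ (H : Type) [Group H] [Finite H] (s : ZMod 10 → H) (sg : H →* ℤˣ) (hG : Grp H s sg),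
  ∃ σ : Perm (II H × Bool), Rot s sg σ ∧ ∀ d d', σ.SameCycle d d' ↔ (GH hG).src d = (GH hG).src d'

/-- **FAC** (short to medium).  All faces have 24 darts.  PROOF.  `ψ = opp * σ`, `f h c = (inl (h, c), false)`, `ε = ± 1` (in `ZMod 10`) according to `sg h`.  `σ (f h c) = f h (c + ε)`, `ψ (f h c) = (inl (h, c + ε), true)`.  If `c + ε` is R: `ψ² (f h c) = f (h * s (c + ε)) (c + ε)`; if it is K: `ψ² (f h c) = (inr (h, c + ε), false)`,
`ψ³ (f h c) = (inr (h * s (c + ε), c + ε), true)`, `ψ⁴ (f h c) = f (h * s (c + ε)) (c + ε)`.  The sign of `h * s (c + ε)` is the opposite, so the next label is `c`; exactly one of `c`, `c + ε` is K, so `ψ⁶ (f h c) = f (h * s (c + ε) * s c) c` and `ψ²⁴ (f h c) = f (h * (s (c + ε) * s c) ^ 4) c = f h c` (`four`; for the other order conjugate).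
The other darts are `ψ`, `ψ²`, `ψ³` of such darts (`(inl (h, c), true) = ψ (f h (c - ε))`, `(inr (h, c), false) = ψ² (f h (c - ε))`, `(inr (h, c), true) = ψ³ (f (h * s c) (c + ε))` for `c` K), so `ψ ^ 24` fixes them. -/
def FAC_stmt : Prop := ∀ (H : Type) [Group H] [Finite H] (s : ZMod 10 → H) (sg : H →* ℤˣ) (hG : Grp H s sg)
  (σ : Perm (II H × Bool)), Rot s sg σ → ∀ d, ((oppI H * σ) ^ 24) d = d

/-- **CON** (short to medium).  The graph is connected.  PROOF.  All darts are in one orbit of the group generated by `σ, opp`: the `f h c`, `c ∈ ZMod 10`, are in one orbit for fixed `h` (powers of `σ`); `f h c` and `f (h * s c) c` are in one orbit (apply `opp, σ, opp`, for a K-label `opp, σ, opp, σ, opp, σ, opp`); the `s c` generate `H`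
(`Subgroup.closure_induction` for the set of the `g` such that for all `h` the darts `f h 0` and `f (h * g) 0` are in one orbit); the other darts are connected with some `f h c` (`opp`, `σ`).  So there is at most one orbit. -/
def CON_stmt : Prop := ∀ (H : Type) [Group H] [Finite H] (s : ZMod 10 → H) (sg : H →* ℤˣ) (hG : Grp H s sg)
  (σ : Perm (II H × Bool)), Rot s sg σ → comps σ (oppI H) ≤ 1

/-- **DIV** (short).  PROOF.  The kernel of `sg` has index 2 and contains `s 0 * s 1`, an element of order 4 (`four`, `two`); Lagrange. -/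
def DIV_stmt : Prop := ∀ (H : Type) [Group H] [Finite H] (s : ZMod 10 → H) (sg : H →* ℤˣ), Grp H s sg → 8 ∣ Nat.card H

/-- **GEN** (short to medium; from CYL, ROT, FAC, CON, DIV).  The genus.  PROOF.  `n = 8 k`.  `|D| = 30 n` (`|{c // KL c}| = 5`).  `cyc σ ≥ 11 n`: CYL with `L = 10` on the `10 n` darts `(inl _, false)` and `L = 2` on the other `20 n` darts (`σ ^ 10` adds `± 10 = 0`; `σ²` fixes the others: `s c * s c = 1`).
`cyc (opp * σ) ≥ 30 n / 24 = 10 k` (CYL, FAC).  `30 n + 4 = 240 k + 4 ≤ 2 * 88 k + 2 * 10 k + 4 (1 + 11 k)`. -/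
def GEN_stmt : Prop := ∀ (H : Type) [Group H] [Finite H] (s : ZMod 10 → H) (sg : H →* ℤˣ) (hG : Grp H s sg),
  (GH hG).GenusLE (1 + 11 * (Nat.card H / 8))

/-! ## C. Arc families -/

section

variable {H : Type} [Group H] {s : ZMod 10 → H} {sg : H →* ℤˣ}

/-- the positions: `pos h c` is the number of the common point of the arcs `h` and `nb h c` on the arc `h`, `yp h c` its number
on the arc of the small vertex (`c` a K-label) -/
structure PosData (hG : Grp H s sg) (A : ArcFamily (VV sg)) (pos yp : H → ZMod 10 → ℕ) : Prop where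
  lenH : ∀ h, A.len (Sum.inl h) = 10
  lenY : ∀ y, A.len (Sum.inr y) = 2
  lt : ∀ h c, pos h c < 10
  inj : ∀ h c c', pos h c = pos h c' → c = c'
  sur : ∀ h i, i < 10 → ∃ c, pos h c = i
  eR : ∀ h c, ¬ KL c → A.pt (Sum.inl h) (pos h c) = A.pt (Sum.inl (h * s c)) (pos (h * s c) c)
  eK : ∀ h c (hc : KL c), A.pt (Sum.inl h) (pos h c) = A.pt (Sum.inr (yy hG h c hc)) (yp h c)
  ylt : ∀ h c, KL c → yp h c < 2
  yne : ∀ h c, KL c → yp h c ≠ yp (h * s c) c
  twoR : ∀ h c, ¬ KL c → ∀ x i, i < A.len x → A.pt x i = A.pt (Sum.inl h) (pos h c) →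
    (x = Sum.inl h ∧ i = pos h c) ∨ (x = Sum.inl (h * s c) ∧ i = pos (h * s c) c)
  twoK : ∀ h c (hc : KL c), ∀ x i, i < A.len x → A.pt x i = A.pt (Sum.inl h) (pos h c) →
    (x = Sum.inl h ∧ i = pos h c) ∨ (x = Sum.inr (yy hG h c hc) ∧ i = yp h c)

end

/-- **GFA** (medium).  The multigraph `GG`.  PROOF.  `m x y` for `x ≠ y` is the number of `e : EE sg` with incidences at `x` and at `y`.  The edge `⟨(h, c), K⟩` has exactly the vertices `inl h`, `inr (yy h c)`; the edge `⟨(h, c), _⟩` with `c` R (`sg h = 1`) has exactly the vertices `inl h`, `inl (h * s c)`.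
(1) `ee h c` is incident with `inl h` and with `nb h c`; another such edge `e`: `e.1.2 = c'` and `nb h c' = nb h c`, so `c' = c` by (2).  (2) `nb` is injective in the label: for two K-labels look at `(yy h c).1.2`; K and R: `inr ≠ inl`; two R-labels: `s c = s c'`, `c ≠ c'` contradicts `cls` for the word `[c, c']`
(`inv`; its length is not 8).  (3) `m x y ≠ 0` gives an edge.  (4) triangles: two small vertices are not adjacent (`nb`), so at least two of the three are big, `inl h`, `inl (h * s c)`, `c` R; the third is big: three elements of `H` which are pairwise related by some `s _`: the signs `sg` are pairwise different, impossible; or the third is small: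
`yy h c₁ = yy (h * s c) c₂`, so `c₁ = c₂ =: c'` K and `nrm h c' = nrm (h * s c) c'`: one of `h`, `h * s c` has sign `1`, so the other one times `s c'` is equal to it: `s c = s c'`, impossible by (2).  (5) the neighbours of a small vertex `yy h c`: `inl h'` with `yy h' c' = yy h c`: `c' = c`, `nrm h' c = nrm h c`, `h' ∈ {h, h * s c}`. -/
def GFA_stmt : Prop := ∀ (H : Type) [Group H] [Finite H] (s : ZMod 10 → H) (sg : H →* ℤˣ) (hG : Grp H s sg),
  (∀ h c, Sum.inl h ≠ nb hG h c ∧ (GG hG).m (Sum.inl h) (nb hG h c) = 1 ∧ (GG hG).m (nb hG h c) (Sum.inl h) = 1) ∧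
  (∀ h c c', nb hG h c = nb hG h c' → c = c') ∧ (∀ c c', s c = s c' → c = c') ∧
  (∀ h y, (GG hG).m (Sum.inl h) y ≠ 0 → ∃ c, y = nb hG h c) ∧
  (∀ h c (hc : KL c) x, (GG hG).m (Sum.inr (yy hG h c hc)) x ≠ 0 → x = Sum.inl h ∨ x = Sum.inl (h * s c)) ∧
  (∀ x y z, (GG hG).m x y ≠ 0 → (GG hG).m y z ≠ 0 → (GG hG).m x z ≠ 0 → False) ∧
  (∀ y : YY sg, ∃ h c hc, y = yy hG h c hc) ∧
  ∀ h c (hc : KL c), yy hG (h * s c) c hc = yy hG h c hc ∧ h * s c ≠ h

/-- **POS** (medium; from GFA).  Positions.  PROOF.  For `(h, c)` there is exactly one common point of `inl h` and `nb h c` (`m = 1`, `Nat.card` of the set of common points is `1`); let `pos h c` be its number on `inl h` (unique, `A.inj`), `yp h c` its number on `nb h c` if `c` is K.  A point of an arc `x` is on at most one other arc: if it is on `x, y, z` (different) then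
all three multiplicities are `≠ 0` (the sets of common points are finite: the arcs have finitely many points), against the triangle statement of GFA.  `inj`: two labels at the same position give two neighbours through the same point, so `nb h c = nb h c'`.  `sur` and `len = 10`: every point of `inl h` is on another arc `y` (`A.common`), `m (inl h) y ≠ 0`,
`y = nb h c`, and the point is the common point; so `pos h : ZMod 10 → {i | i < len}` is bijective.  For a small vertex `yy h c` the neighbours are `inl h`, `inl (h * s c)`, different, with one common point each (different points): `len = 2`, `yp h c ≠ yp (h * s c) c`.  `twoR`, `twoK`: a point on two arcs is on no third one; `A.inj` for the numbers. -/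
def POS_stmt : Prop := ∀ (H : Type) [Group H] [Finite H] (s : ZMod 10 → H) (sg : H →* ℤˣ) (hG : Grp H s sg)
  (A : ArcFamily (VV sg)), (∀ x y, x ≠ y → (GG hG).m x y = A.mult x y) → ∃ pos yp, PosData hG A pos yp

/-- **EUL** (medium; from DIV).  Euler's formula for the arcs.  PROOF.  `n = 8 k`.  `|Ray| = 2 ∑ (len x - 1) = 2 (9 n + 5 n / 2) = 23 n` (the number of small vertices is `5 n / 2`: the map `(h, c) ↦ yy h c` from `H × {K-labels}` is two to one).  `cyc σ ≤ 15 n / 2`: the cycles correspond to the points which are the start of a ray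
(`SameCycle ↔` same point); every point is on exactly two arcs (`twoR`, `twoK`), so `2 * (number of points) ≤ ∑ len x = 10 n + 5 n`.  `comps ≥ 1` (there are rays).  `Fits`: `23 n + 4 ≤ 15 n + 2 cyc ψ + 4 + 44 k`, so `2 cyc ψ ≥ 64 k - 44 k = 20 k`. -/
def EUL_stmt : Prop := ∀ (H : Type) [Group H] [Finite H] (s : ZMod 10 → H) (sg : H →* ℤˣ) (hG : Grp H s sg)
  (A : ArcFamily (VV sg)) (pos yp : H → ZMod 10 → ℕ) (σ : Perm A.Ray), PosData hG A pos yp →
  (∀ r r' : A.Ray, σ.SameCycle r r' ↔ r.p = r'.p) → Fits σ A.flip (1 + 11 * (Nat.card H / 8)) →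
  10 * Nat.card H ≤ 8 * cyc (A.flip * σ)

theorem exists_ray {X : Type} (A : ArcFamily X) (h2 : ∀ x, 2 ≤ A.len x) (x : X) (i : ℕ) (hi : i < A.len x) :
    ∃ r : A.Ray, r.x = x ∧ r.i = i := by
  by_cases h : 1 ≤ i
  · exact ⟨⟨x, i, false, by change i + 0 < A.len x ∧ 1 ≤ i + 0; omega⟩, rfl, rfl⟩
  · have := h2 x
    exact ⟨⟨x, i, true, by change i + 1 < A.len x ∧ 1 ≤ i + 1; omega⟩, rfl, rfl⟩

theorem ray_lt {X : Type} {A : ArcFamily X} (r : A.Ray) : r.i < A.len r.x := by
  have := r.ok.1
  omega

theorem other_ray {X : Type} (A : ArcFamily X) (h2 : ∀ x, 2 ≤ A.len x) (e : A.Ray) :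
    ∃ r : A.Ray, r.x ≠ e.x ∧ r.p = e.p := by
  obtain ⟨y, j, hj, hy, hp⟩ := A.common e.x e.i (ray_lt e)
  obtain ⟨r, hr1, hr2⟩ := exists_ray A h2 y j hj
  refine ⟨r, by rw [hr1]; exact hy, ?_⟩
  unfold ArcFamily.Ray.p
  rw [hr1, hr2, hp]

/-- a point is at one number of an arc only -/
theorem ray_i {X : Type} {A : ArcFamily X} {r r' : A.Ray} (hx : r.x = r'.x) (hp : r.p = r'.p) : r.i = r'.i := by
  have h1 := ray_lt r
  have h2 := ray_lt r'
  unfold ArcFamily.Ray.p at hp
  rw [hx] at h1 hp
  exact A.inj _ _ _ h1 h2 hp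

instance {X : Type} [Finite X] (A : ArcFamily X) : Finite A.Ray := by
  have h : Function.Injective (fun r : A.Ray => (⟨r.x, ⟨r.i, ray_lt r⟩, r.b⟩ : Σ x : X, Fin (A.len x) × Bool)) := by
    rintro ⟨x, i, b, h1⟩ ⟨x', i', b', h1'⟩ h
    obtain ⟨rfl, h2⟩ := Sigma.mk.inj_iff.1 h
    have h3 := eq_of_heq h2
    have h4 : i = i' := congrArg (fun q => (q.1 : ℕ)) h3
    have h5 : b = b' := congrArg (fun q => q.2) h3
    subst h4 h5
    rfl
  exact Finite.of_injective _ h

/-- **FRT** (medium; only Mathlib).  The first return map.  PROOF.  For `b ∈ B` let `t b ≥ 1` be minimal with `(ψ ^ t) b ∈ B` (exists: `ψ` has finite order), `τ b = (ψ ^ t b) b`.  `τ` is injective (if `τ b = τ b'`, `t b ≤ t b'`, then `b = (ψ ^ (t b' - t b)) b'`, so `t b = t b'` by minimality), so a permutation of the finite set `B`.  The cycles of `τ` are the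
intersections of the cycles of `ψ` with `B`, all nonempty: `SameCycle τ b b' ↔ SameCycle ψ b b'` (for `b' = (ψ ^ m) b` induction on `m`).  So the quotients are in bijection. -/
def FRT_stmt : Prop := ∀ (D : Type) [Finite D] (ψ : Perm D) (B : Set D), (∀ d, ∃ m : ℕ, (ψ ^ m) d ∈ B) →
  ∃ τ : Perm B, cyc τ = cyc ψ ∧ ∀ b : B, ∃ t, 1 ≤ t ∧ ((τ b : B) : D) = (ψ ^ t) b ∧ ∀ u, 1 ≤ u → u < t → (ψ ^ u) b ∉ B

/-- The traveller who enters the arc of `σ a` with the ray `σ a` leaves this arc when he arrives at the point of `e` (the ray `e`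
points back); in between he passes straight. -/
structure Go {X : Type} (A : ArcFamily X) (σ : Perm A.Ray) (a e : A.Ray) : Prop where
  x : e.x = (σ a).x
  ne : e.i ≠ (σ a).i
  b' : e.b = decide (e.i < (σ a).i)
  b : (σ a).b = decide ((σ a).i < e.i)
  out : (σ e).x ≠ e.x
  str : ∀ r : A.Ray, r.x = e.x → ((σ a).i < r.i ∧ r.i < e.i ∨ e.i < r.i ∧ r.i < (σ a).i) →
    r.b = decide (r.i < (σ a).i) → (σ r).x = r.x ∧ (σ r).i = r.i ∧ (σ r).b = !r.b

/-- **WLK** (medium).  Walking along an arc.  PROOF.  Let `x` be the arc of `σ a`, `i₀` its number, say `(σ a).b = true` (the other direction in the same way).  `ψ a = flip (σ a)` is the ray of `x` at `i₀ + 1` with `b = false`.  If `e = ψ ^ u a` is the ray of `x` at `i₀ + u` with `b = false`: if `(σ e).x ≠ x` stop: `t = u`.  Otherwise `σ e` is a ray of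
`x` at the same point, so (`A.inj`) at the same number; it is not `e`: otherwise the cycle of `e` is `{e}`, but the point of `e` is also on another arc `y` (`A.common`), which has a ray at this point (`len y ≥ 2`) in the cycle of `e`.  So `σ e` is the ray at `i₀ + u` with `b = true`, and `ψ ^ (u + 1) a` is the ray at `i₀ + u + 1` with `b = false`.
This must stop (numbers are `< len x`). -/
def WLK_stmt : Prop := ∀ (X : Type) (A : ArcFamily X) (σ : Perm A.Ray),
  (∀ r r' : A.Ray, σ.SameCycle r r' ↔ r.p = r'.p) → (∀ x, 2 ≤ A.len x) → ∀ a : A.Ray, ∃ t, 1 ≤ t ∧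
    Go A σ a (((A.flip * σ) ^ t) a) ∧
    ∀ u, 1 ≤ u → u < t → (((A.flip * σ) ^ u) a).x = (σ a).x ∧ (σ (((A.flip * σ) ^ u) a)).x = (σ a).x

section

variable {H : Type} [Group H] {s : ZMod 10 → H} {sg : H →* ℤˣ}

/-- exits: rays `e` of a big arc at which the traveller leaves this arc -/
def Exit (A : ArcFamily (VV sg)) (σ : Perm A.Ray) (e : A.Ray) : Prop := (∃ h, e.x = Sum.inl h) ∧ (σ e).x ≠ e.x

/-- the big vertex of a ray -/
def hvr {A : ArcFamily (VV sg)} (r : A.Ray) : H := Sum.elim id (fun _ => 1) r.x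

open Classical in
/-- the label of a ray -/
noncomputable def labr {A : ArcFamily (VV sg)} (pos : H → ZMod 10 → ℕ) (r : A.Ray) : ZMod 10 :=
  if h : ∃ c, pos (hvr r) c = r.i then h.choose else 0

theorem exit_x {A : ArcFamily (VV sg)} {σ : Perm A.Ray} {e : A.Ray} (he : Exit A σ e) : e.x = Sum.inl (hvr e) := by
  obtain ⟨⟨h, hh⟩, -⟩ := he
  unfold hvr
  rw [hh]
  rfl

theorem labr_pos {hG : Grp H s sg} {A : ArcFamily (VV sg)} {pos yp : H → ZMod 10 → ℕ} (hP : PosData hG A pos yp)
    {r : A.Ray} (hr : r.x = Sum.inl (hvr r)) : pos (hvr r) (labr pos r) = r.i := by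
  have h1 : r.i < 10 := by
    have := r.ok.1
    rw [hr, hP.lenH] at this
    omega
  have h2 := hP.sur (hvr r) r.i h1
  unfold labr
  rw [dif_pos h2]
  exact h2.choose_spec

theorem labr_eq {hG : Grp H s sg} {A : ArcFamily (VV sg)} {pos yp : H → ZMod 10 → ℕ} (hP : PosData hG A pos yp)
    {r : A.Ray} {h : H} {c : ZMod 10} (hx : r.x = Sum.inl h) (hi : r.i = pos h c) : hvr r = h ∧ labr pos r = c := by
  have h1 : hvr r = h := by unfold hvr; rw [hx]; rfl
  refine ⟨h1, ?_⟩
  have h2 := labr_pos hP (r := r) (by rw [h1]; exact hx)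
  rw [h1, hi] at h2
  exact hP.inj _ _ _ h2

/-- `e'` is the next exit after `e` -/
def Nxt (A : ArcFamily (VV sg)) (σ : Perm A.Ray) (s : ZMod 10 → H) (pos : H → ZMod 10 → ℕ) (e e' : A.Ray) : Prop :=
  ∃ a : A.Ray, (¬ KL (labr pos e) → a = e) ∧ a.x ≠ (σ a).x ∧ (σ a).x = Sum.inl (hvr e * s (labr pos e)) ∧
    (σ a).i = pos (hvr e * s (labr pos e)) (labr pos e) ∧ Go A σ a e'

end

/-- **NXT** (medium; from WLK).  The next exit.  PROOF.  `h = hvr e`, `c = labr pos e`, `e.i = pos h c` (`labr_pos`).  `σ e` is on another arc through the point of `e`.  R: by `twoR` it is `inl (h * s c)` at the number `pos (h * s c) c`; WLK with `a = e`: the darts in between are on the arc of `σ a` and do not leave it, so they are not exits.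
K: by `twoK` `σ e` is the ray of `y = yy h c` at the number `yp h c`; WLK: `e₁ = ψ ^ t₁ e` is a ray of `y` (`len = 2`) at the other number `yp (h * s c) c` with `(σ e₁).x ≠ y`, so (`eK`, `twoK` for `h * s c`, `yy (h * s c) c = yy h c`) `σ e₁` is the ray of `inl (h * s c)` at the number `pos (h * s c) c`; WLK again with `a = e₁`; all darts in
between are on `y` (not exits) or pass straight. -/
def NXT_stmt : Prop := ∀ (H : Type) [Group H] [Finite H] (s : ZMod 10 → H) (sg : H →* ℤˣ) (hG : Grp H s sg)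
  (A : ArcFamily (VV sg)) (pos yp : H → ZMod 10 → ℕ) (σ : Perm A.Ray), PosData hG A pos yp →
  (∀ r r' : A.Ray, σ.SameCycle r r' ↔ r.p = r'.p) → ∀ e, Exit A σ e → ∃ t, 1 ≤ t ∧
    Exit A σ (((A.flip * σ) ^ t) e) ∧ Nxt A σ s pos e (((A.flip * σ) ^ t) e) ∧
    ∀ u, 1 ≤ u → u < t → ¬ Exit A σ (((A.flip * σ) ^ u) e)

/-- **SYS** (short to medium; from FRT, NXT, WLK).  The system of exits.  PROOF.  FRT with `B` the set of exits.  Every ray `d` reaches an exit: by WLK from `d` one reaches a ray `e` with `(σ e).x ≠ e.x`; if `e.x` is big it is an exit; otherwise `e.x = inr y` and `(σ e).x` is big (a small vertex shares points with big arcs only: `twoK`), and WLK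
from `e` reaches an exit.  The `t` of FRT and the `t` of NXT are equal (both are the first return time). -/
def SYS_stmt : Prop := ∀ (H : Type) [Group H] [Finite H] (s : ZMod 10 → H) (sg : H →* ℤˣ) (hG : Grp H s sg)
  (A : ArcFamily (VV sg)) (pos yp : H → ZMod 10 → ℕ) (σ : Perm A.Ray), PosData hG A pos yp →
  (∀ r r' : A.Ray, σ.SameCycle r r' ↔ r.p = r'.p) → ∃ τ : Perm {e : A.Ray // Exit A σ e},
    cyc τ = cyc (A.flip * σ) ∧ ∀ e, Nxt A σ s pos e.1 (τ e).1

section

variable {H : Type} [Group H]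

/-- the crossings: `c` an R-label and the common point of `h` and `h * s c` is interior for both arcs -/
def XS (s : ZMod 10 → H) (pos : H → ZMod 10 → ℕ) : Set (H × ZMod 10) :=
  {x | ¬ KL x.2 ∧ 0 < pos x.1 x.2 ∧ pos x.1 x.2 < 9 ∧ 0 < pos (x.1 * s x.2) x.2 ∧ pos (x.1 * s x.2) x.2 < 9}

/-- the passage of `e` at its vertex is the corner `{c, c + 1}` -/
def Cor {T : Type} (τ : Perm T) (lab : T → ZMod 10) (e : T) (c : ZMod 10) : Prop :=
  (lab (τ⁻¹ e) = c ∧ lab e = c + 1) ∨ (lab (τ⁻¹ e) = c + 1 ∧ lab e = c)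

/-- original exits: the word of the cycle is the alternating word of length 8 in two consecutive labels -/
def Orig {T : Type} (τ : Perm T) (lab : T → ZMod 10) (e : T) : Prop :=
  Function.minimalPeriod τ e = 8 ∧ (∀ i : ℕ, lab ((τ ^ (i + 2)) e) = lab ((τ ^ i) e)) ∧
    (lab (τ e) = lab e + 1 ∨ lab e = lab (τ e) + 1)

/-- an abstract system of exits -/
structure Abs {T : Type} (s : ZMod 10 → H) (τ : Perm T) (hv : T → H) (lab : T → ZMod 10) : Prop where
  step : ∀ e, hv (τ e) = hv e * s (lab e)
  ne : ∀ e, lab (τ e) ≠ lab e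

end

/-- **CNX** (medium).  The numbers of exits.  PROOF.  An exit `e` with `(hvr e, labr pos e) = (h, c)` is one of the at most two rays of `inl h` at the number `pos h c`.  If `pos h c` is `0` or `9` there is only one.  If the other arc `y` through the point has only one ray `q` there (K: `len y = 2`; R: `pos (h * s c) c ∈ {0, 9}`), then
`σ e = q` (`σ e` is a ray at this point of another arc), so `e` is unique.  So the number of exits over `(h, c)` is at most `1`, and at most `2` for `(h, c) ∈ XS`.  There are `5 n` pairs with `c` K and `5 n` with `c` R. -/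
def CNX_stmt : Prop := ∀ (H : Type) [Group H] [Finite H] (s : ZMod 10 → H) (sg : H →* ℤˣ) (hG : Grp H s sg)
  (A : ArcFamily (VV sg)) (pos yp : H → ZMod 10 → ℕ) (σ : Perm A.Ray), PosData hG A pos yp →
  (∀ r r' : A.Ray, σ.SameCycle r r' ↔ r.p = r'.p) →
  Nat.card {e : {e : A.Ray // Exit A σ e} // KL (labr pos e.1)} ≤ 5 * Nat.card H ∧
    Nat.card {e : {e : A.Ray // Exit A σ e} // ¬ KL (labr pos e.1)} ≤ 5 * Nat.card H + (XS s pos).ncard

/-- **XCT** (short to medium).  Many crossings.  PROOF.  There are `5 n` pairs `(h, c)` with `c` R.  If it is not in `XS` then `pos h c ∈ {0, 9}` (at most `2 n` pairs: for every `h` the labels at the numbers `0`, `9`) or `pos (h * s c) c ∈ {0, 9}` (at most `2 n` pairs: `(h, c) ↦ (h * s c, c)` is injective).  So `|XS| ≥ 5 n - 4 n`. -/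
def XCT_stmt : Prop := ∀ (H : Type) [Group H] [Finite H] (s : ZMod 10 → H) (sg : H →* ℤˣ) (hG : Grp H s sg)
  (A : ArcFamily (VV sg)) (pos yp : H → ZMod 10 → ℕ), PosData hG A pos yp → Nat.card H ≤ (XS s pos).ncard

/-- **ABS** (short).  PROOF.  `Nxt e (τ e)`: `(τ e).x = (σ a).x = inl (hv e * s (lab e))` and `(τ e).i ≠ (σ a).i = pos (..) (lab e)` (`Go.x`, `Go.ne`), `labr_eq`. -/
def ABS_stmt : Prop := ∀ (H : Type) [Group H] [Finite H] (s : ZMod 10 → H) (sg : H →* ℤˣ) (hG : Grp H s sg)
  (A : ArcFamily (VV sg)) (pos yp : H → ZMod 10 → ℕ) (σ : Perm A.Ray), PosData hG A pos yp →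
  ∀ τ : Perm {e : A.Ray // Exit A σ e}, (∀ e, Nxt A σ s pos e.1 (τ e).1) →
    Abs s τ (fun e => hvr e.1) (fun e => labr pos e.1)

/-- **UNI** (medium; from ABS).  Different original exits have different corners.
PROOF.  `h` the common vertex.  Let `i = pos h (label of the entry)`, `j = e.1.i = pos h (lab e)`; `Nxt (τ⁻¹ e) e` gives `a` with `(σ a).i = i` (`hv (τ⁻¹ e) * s (lab (τ⁻¹ e)) = h`) and `Go a e`.  If `e, e'` have the same entry label (and the same exit label) then `e = e'` (same arc, number, direction).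
Otherwise, by symmetry, let the entry label of `e` be the K-label `κ` of the corner, its exit label the R-label `ρ`, and for `e'` entry `ρ`, exit `κ`; `i = pos h κ`, `j = pos h ρ`; so `e` is the ray at `j` towards `i` and `e'` the ray at `i` towards `j`.
(a) At `j`: `b = h * s ρ`.  `σ e` is the ray of `b` at `pos b ρ` towards `pos b κ`, because `Nxt e (τ e)` has `a = e` (`ρ` is R) and `lab (τ e) = lab (τ⁻¹ e) = κ` (`Orig`: `lab (τ² (τ⁻¹ e)) = lab (τ⁻¹ e)`).  `e'' = τ⁻¹ e'` is an exit of `b` with label `ρ`, entry label `lab (τ⁻¹ e'') = κ` (`Orig`), so `e''` is the ray of `b` at `pos b ρ` towards `pos b κ`: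
`σ e = e''`.  And `Nxt e'' e'` has `a = e''` (`ρ` is R): `σ e''` is the ray of `h` at `j` towards `i`, that is `e`.  So `σ (σ e) = e`: the cycle of `e` is `{e, e''}`, so `h` has only one ray at the number `j`: `j = 0` or `j = 9`.
(b) At `i`: `σ e'` is the ray of the small arc `y` at this point (it has only one, `len = 2`); `Nxt (τ⁻¹ e) e`: `a` is a ray of another arc than `h` at the point number `i` (`a` and `σ a` are at the same point), so `a` is the same ray of `y`, and `σ a` is the ray of `h` at `i` towards `j`, that is `e'`.  So `σ (σ e') = e'` and `i = 0` or `i = 9`.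
(c) So `{i, j} = {0, 9}`; at a number `m` strictly between them (`m = 1`): `Go.str` of both: `σ` maps the ray of `h` at `m` towards `i` to the ray towards `j` and conversely, so the cycle at this point consists of these two rays; but the other arc through the point has a ray there.  Contradiction. -/
def UNI_stmt : Prop := ∀ (H : Type) [Group H] [Finite H] (s : ZMod 10 → H) (sg : H →* ℤˣ) (hG : Grp H s sg)
  (A : ArcFamily (VV sg)) (pos yp : H → ZMod 10 → ℕ) (σ : Perm A.Ray), PosData hG A pos yp →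
  (∀ r r' : A.Ray, σ.SameCycle r r' ↔ r.p = r'.p) → ∀ τ : Perm {e : A.Ray // Exit A σ e},
  (∀ e, Nxt A σ s pos e.1 (τ e).1) → ∀ e e', Orig τ (fun e => labr pos e.1) e → Orig τ (fun e => labr pos e.1) e' →
    hvr e.1 = hvr e'.1 → ∀ c, Cor τ (fun e => labr pos e.1) e c → Cor τ (fun e => labr pos e.1) e' c → e = e'

/-- **MIS** (medium; from ABS).  At a crossing a corner is missing.
PROOF.  Let `(h, c) ∈ XS` and suppose that every corner `c'` of `h` is the corner of an original exit `e`.  By `Nxt (τ⁻¹ e) e` and `Go.str`, at every number strictly between `pos h c'` and `pos h (c' + 1)` (entry and exit) `σ` maps a ray of `h` to a ray of `h`.  At the number `pos h c` this is false: `NowhereTangent` for the two rays of `h` and the two rays of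
`h * s c` gives `Alternate`; in both directions `σ` does not map one of the rays `a, a'` to the other one (`σ a = a'` would be `σ ^ 1 a = σ ^ l a` with `l ≥ 2`, `l ≤ m`: then `σ ^ (l - 1)` fixes `a`, `0 < l - 1 ≤ m`; for `σ a' = a`: `σ ^ (l + 1) a = a` with `l + 1 ≤ m`).  So `pos h c` is not strictly between `pos h c'` and `pos h (c' + 1)`.
For `c' = c + 1, .., c + 8`: the labels `c', c' + 1` are `≠ c`, so they are on the same side of `pos h c`.  So all labels `≠ c` are on the same side: but the labels at the numbers `0` and `9` are on different sides (`0 < pos h c < 9`). -/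
def MIS_stmt : Prop := ∀ (H : Type) [Group H] [Finite H] (s : ZMod 10 → H) (sg : H →* ℤˣ) (hG : Grp H s sg)
  (A : ArcFamily (VV sg)) (pos yp : H → ZMod 10 → ℕ) (σ : Perm A.Ray), PosData hG A pos yp →
  (∀ r r' : A.Ray, σ.SameCycle r r' ↔ r.p = r'.p) → NowhereTangent A σ → ∀ τ : Perm {e : A.Ray // Exit A σ e},
  (∀ e, Nxt A σ s pos e.1 (τ e).1) → ∀ x ∈ XS s pos, ∃ c, ∀ e, Orig τ (fun e => labr pos e.1) e → hvr e.1 = x.1 →
    ¬ Cor τ (fun e => labr pos e.1) e c

/-- weight of a label -/
def wt (c : ZMod 10) : ℕ := if KL c then 45 else 1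

/-- **WRD** (short to medium).  Words of cycles.  PROOF.  `N = minimalPeriod τ e ≥ 1` (`T` finite), `w = [lab e, lab (τ e), .., lab (τ ^ (N - 1) e)]` (`List.map` over `List.range N`).  `hv (τ ^ m e) = hv e * product of the first m letters`, so the product of `w` is `1`.  Consecutive letters are different (`ne`), the last letter `lab (τ ^ (N - 1) e)` is
different from `lab (τ ^ N e) = lab e`.  `∑ wt = 45 * kn w + rn w`.  If the sum is `≤ 224`, `cls`: `w = alt c (c + 1)` or `alt (c + 1) c`, so `N = 8` and the labels alternate with period 2 (also after `τ ^ 8 e = e`). -/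
def WRD_stmt : Prop := ∀ (H : Type) [Group H] (s : ZMod 10 → H) (sg : H →* ℤˣ), Grp H s sg →
  ∀ (T : Type) [Finite T] (τ : Perm T) (hv : T → H) (lab : T → ZMod 10), Abs s τ hv lab → ∀ e, Orig τ lab e ∨
    225 ≤ ∑ i ∈ Finset.range (Function.minimalPeriod τ e), wt (lab ((τ ^ i) e))

/-- **CNT** (medium; from WRD).  The count.  PROOF.  `Orig` is invariant under `τ`.  Let `O` be the set of original exits; every cycle in `O` has 8 elements, so there are `|O| / 8` of them.  The sum of `wt ∘ lab` over all exits is `45 #K + #R ≤ 230 n + |X|`; the sum over an original cycle is `4 * 45 + 4 = 184` (the labels alternate between a K- and an R-label),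
over any other cycle at least `225` (WRD).  So `225 (cyc τ - |O| / 8) + 23 |O| ≤ 230 n + |X|` (`184 / 8 = 23`), and with `8 cyc τ ≥ 10 n`: `225 (10 n - |O|) + 184 |O| ≤ 1840 n + 8 |X|`, that is `41 (10 n - |O|) ≤ 8 |X|`.  The map from `O` to `H × ZMod 10`, `e ↦ (hv e, c)` with `Cor e c` (exists by `Orig` applied to `τ⁻¹ e`, and is unique), is injective
(`hU`).  Let `T` be the complement of its image: `|T| = 10 n - |O|`.  For `x ∈ X` there is `(x.1, c) ∈ T` (`hM`), and for every `h` at most 5 elements `(h, c)` of `X` (`c` R): `|X| ≤ 5 |T|`.  So `41 |T| ≤ 40 |T|`, `|T| = 0`, `|X| = 0`, but `|X| ≥ n ≥ 1`. -/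
def CNT_stmt : Prop := ∀ (H : Type) [Group H] [Finite H] (s : ZMod 10 → H) (sg : H →* ℤˣ), Grp H s sg →
  ∀ (T : Type) [Finite T] (τ : Perm T) (hv : T → H) (lab : T → ZMod 10) (X : Set (H × ZMod 10)), Abs s τ hv lab →
    Nat.card {e : T // KL (lab e)} ≤ 5 * Nat.card H → Nat.card {e : T // ¬ KL (lab e)} ≤ 5 * Nat.card H + X.ncard →
    Nat.card H ≤ X.ncard → (∀ x ∈ X, ¬ KL x.2) →
    (∀ e e', Orig τ lab e → Orig τ lab e' → hv e = hv e' → ∀ c, Cor τ lab e c → Cor τ lab e' c → e = e') →
    (∀ x ∈ X, ∃ c, ∀ e, Orig τ lab e → hv e = x.1 → ¬ Cor τ lab e c) → 10 * Nat.card H ≤ 8 * cyc τ → False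

/-- **FIN** (short; from GRP, GEN, POS, EUL, SYS, CNX, XCT, ABS, UNI, MIS, CNT).  The result.  PROOF.  `G = GG hG`, `g₀ = 1 + 11 (n / 8)`: `ReducedGenusLE G g₀` by GEN (`Adj` is `GG`).  Let `g` be the least `g` with `ReducedGenusLE G g`; `g ≤ g₀`.  If `ArcRep G g` then `Fits σ flip g`, so `Fits σ flip g₀`; POS, EUL, SYS (`cyc τ = cyc ψ`), CNX, XCT, ABS, UNI, MIS, CNT give `False`. -/
def FIN_stmt : Prop := ∃ (X : Type) (_ : Finite X) (G : MGraph X) (g : ℕ),
  IsLeast {k | ReducedGenusLE G k} g ∧ ¬ ArcRep G g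

end Pool.Agent.NTA
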